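import Mathlib

namespace Pool.Agent.H.MP_a29b63_ag
open CategoryTheory Abelian MvPolynomial

universe u
variable {K : Type u} [Field K] {n : ℕ}

/-- The polynomial ring `K[x_1, …, x_n]`. -/
abbrev P (K : Type u) [Field K] (n : ℕ) := MvPolynomial (Fin n) K

noncomputable abbrev I (K : Type u) [Field K] (T : Finset (Fin n)) : Ideal (P K n) :=
  Ideal.span (X '' (T : Set (Fin n)))

noncomputable abbrev L (K : Type u) [Field K] (T : Finset (Fin n)) : ModuleCat.{u} (P K n) :=
  ModuleCat.of _ (P K n ⧸ I K T)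

theorem reg {T : Finset (Fin n)} {k : Fin n} (hk : k ∉ T) {p : P K n} (h : X k * p ∈ I K T) :
    p ∈ I K T := by
  rw [mem_ideal_span_X_image] at h ⊢
  intro m hm
  obtain ⟨i, hi, h1⟩ := h (Finsupp.single k 1 + m) (by simpa [coeff_X_mul] using hm)
  refine ⟨i, hi, ?_⟩
  have : k ≠ i := fun e => hk (e ▸ hi)
  simpa [Finsupp.single_apply, this] using h1

noncomputable abbrev SC (T : Finset (Fin n)) (k : Fin n) : ShortComplex (ModuleCat.{u} (P K n)) where
  f := (X k : P K n) • 𝟙 (L K T)
  g := ModuleCat.ofHom (Submodule.factor (show I K T ≤ I K (insert k T) from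
    Ideal.span_mono (Set.image_mono (by simp))))
  zero := by
    ext
    exact (Submodule.Quotient.mk_eq_zero _).2 (by simpa using Ideal.subset_span (by simp))

theorem SC_exact {T : Finset (Fin n)} {k : Fin n} (hk : k ∉ T) : (SC (K := K) T k).ShortExact := by
  refine ModuleCat.shortComplex_shortExact _ (fun y => ⟨fun h => ?_, ?_⟩) ?_
    (Submodule.factor_surjective (show I K T ≤ I K (insert k T) from
      Ideal.span_mono (Set.image_mono (by simp))))
  · obtain ⟨p, rfl⟩ := Submodule.Quotient.mk_surjective _ y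
    have h1 : p ∈ I K (insert k T) := (Submodule.Quotient.mk_eq_zero _).1 h
    rw [I, Finset.coe_insert, Set.image_insert_eq, Ideal.mem_span_insert] at h1
    obtain ⟨a, z, hz, rfl⟩ := h1
    refine ⟨Submodule.Quotient.mk a, (Submodule.Quotient.eq _).2 ?_⟩
    simpa [mul_comm] using hz
  · rintro ⟨x, rfl⟩
    exact (SC T k).moduleCat_zero_apply x
  · rw [injective_iff_map_eq_zero]
    intro y hy
    obtain ⟨p, rfl⟩ := Submodule.Quotient.mk_surjective _ y
    exact (Submodule.Quotient.mk_eq_zero _).2 (reg hk ((Submodule.Quotient.mk_eq_zero _).1 hy))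

theorem L_pd (T : Finset (Fin n)) : HasProjectiveDimensionLT (L K T) (T.card + 1) := by
  induction T using Finset.induction_on with
  | empty =>
    have : Module.Projective (P K n) (P K n ⧸ I K ∅) :=
      .of_equiv (Submodule.quotEquivOfEqBot (I K ∅) (by simp)).symm
    simpa using (inferInstance : HasProjectiveDimensionLT (L K ∅) 1)
  | insert k T hk ih =>
    rw [Finset.card_insert_of_notMem hk]
    exact (SC_exact hk).hasProjectiveDimensionLT_X₃ _ ih
      (@hasProjectiveDimensionLT_of_ge _ _ _ _ _ _ (Nat.le_succ _) ih)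

theorem ext_L (i : ℕ) : ∀ T : Finset (Fin n), i + T.card < n →
    ∀ e : Ext (L K (Finset.univ : Finset (Fin n))) (L K T) i, e = 0 := by
  have h0 : ∀ (k : Fin n) (Y : ModuleCat.{u} (P K n)) (i : ℕ)
      (e : Ext (L K (Finset.univ : Finset (Fin n))) Y i),
      e.comp (Ext.mk₀ ((X k : P K n) • 𝟙 Y)) (add_zero i) = 0 := by
    intro k Y i e
    have : (X k : P K n) • 𝟙 (L K (Finset.univ : Finset (Fin n))) = 0 := by
      ext
      exact (Submodule.Quotient.mk_eq_zero _).2 (by simpa using Ideal.subset_span (by simp))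
    rw [Ext.mk₀_smul, Ext.comp_smul, Ext.comp_mk₀_id, ← e.mk₀_id_comp, ← Ext.smul_comp,
      ← Ext.mk₀_smul, this, Ext.mk₀_zero, Ext.zero_comp]
  have h1 : ∀ T : Finset (Fin n), T.card < n → ∃ k, k ∉ T := fun T h => by
    by_contra h2
    push Not at h2
    rw [Finset.eq_univ_of_forall h2] at h
    simp at h
  induction i with
  | zero =>
    intro T hT e
    obtain ⟨k, hk⟩ := h1 T (by omega)
    have := (SC_exact (K := K) hk).mono_f
    apply Ext.postcomp_mk₀_injective_of_mono _ (SC T k).f
    rw [map_zero]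
    exact h0 k _ 0 e
  | succ i ih =>
    intro T hT e
    obtain ⟨k, hk⟩ := h1 T (by omega)
    obtain ⟨x, rfl⟩ := Ext.covariant_sequence_exact₁ _ (SC_exact (K := K) hk) e (h0 k _ _ e) rfl
    rw [ih (insert k T) (by rw [Finset.card_insert_of_notMem hk]; omega) x, Ext.zero_comp]

theorem depth (r : ℕ) : ∀ (M : ModuleCat.{u} (P K n)) [Module.Finite (P K n) M],
    HasProjectiveDimensionLT M (r + 1) → ∀ i, i + r < n →
      ∀ e : Ext (L K (Finset.univ : Finset (Fin n))) M i, e = 0 := by
  have base : ∀ (M : ModuleCat.{u} (P K n)) [Module.Finite (P K n) M] [Module.Projective (P K n) M],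
      ∀ i < n, ∀ e : Ext (L K (Finset.univ : Finset (Fin n))) M i, e = 0 := by
    intro M _ _ i hi e
    obtain ⟨m, f, g, -, -, h⟩ := Module.Finite.exists_comp_eq_id_of_projective (P K n) M
    let q := Submodule.quotEquivOfEqBot (I K (∅ : Finset (Fin n))) (by simp)
    let a : Fin m → (M ⟶ L K ∅) := fun j =>
      ModuleCat.ofHom (q.symm.toLinearMap ∘ₗ LinearMap.proj j ∘ₗ g)
    let b : Fin m → (L K ∅ ⟶ M) := fun j =>
      ModuleCat.ofHom (f ∘ₗ LinearMap.single _ _ j ∘ₗ q.toLinearMap)
    have : 𝟙 M = ∑ j, a j ≫ b j := by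
      ext x
      have := LinearMap.congr_fun h x
      simp only [LinearMap.comp_apply, LinearMap.id_apply] at this
      simp [a, b, ← map_sum, Finset.univ_sum_single, this]
    rw [← e.comp_mk₀_id, this, Ext.mk₀_sum, Ext.comp_sum]
    refine Finset.sum_eq_zero fun j _ => ?_
    rw [← Ext.mk₀_comp_mk₀, ← Ext.comp_assoc_of_third_deg_zero,
      ext_L i ∅ (by simpa using hi) (e.comp _ _), Ext.zero_comp]
  induction r with
  | zero =>
    intro M _ h i hi e
    have : Module.Projective (P K n) M :=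
      (IsProjective.iff_projective (P := M)).2 (projective_iff_hasProjectiveDimensionLT_one.2 h)
    exact base M i hi e
  | succ r ih =>
    intro M _ h i hi e
    obtain ⟨m, f, hf⟩ := Module.Finite.exists_fin' (P K n) M
    have hS := LinearMap.shortExact_shortComplexKer hf
    have h1 := (hS.hasProjectiveDimensionLT_X₃_iff r inferInstance).1 h
    obtain ⟨x, rfl⟩ := Ext.covariant_sequence_exact₃ _ hS e rfl (ih _ h1 (i + 1) (by omega) _)
    rw [base _ i (by omega) x, Ext.zero_comp]

theorem pd_ge (M : ModuleCat.{u} (P K n)) [Module.Finite (P K n) M] {w : M} (hw : w ≠ 0)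
    (h : ∀ k, (X k : P K n) • w = 0) : ¬ HasProjectiveDimensionLT M n := by
  intro h1
  rcases n with _ | r
  · exact hw ((ModuleCat.isZero_iff_subsingleton.1
      (isZero_of_hasProjectiveDimensionLT_zero M)).elim _ _)
  · let f : L K Finset.univ ⟶ M := ModuleCat.ofHom ((I K Finset.univ).liftQ
      (LinearMap.toSpanSingleton _ _ w) (Ideal.span_le.2 (by rintro _ ⟨k, -, rfl⟩; exact h k)))
    have := (Ext.mk₀_eq_zero_iff f).1 (depth r M h1 0 (by omega) _)
    apply hw
    have h2 : f.hom (Submodule.Quotient.mk 1) = w := by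
      simp only [f, ModuleCat.hom_ofHom, Submodule.liftQ_apply, LinearMap.toSpanSingleton_apply,
        one_smul]
    rw [← h2, this]; rfl

theorem pd_lt (M : ModuleCat.{u} (P K n)) (a : ∀ i, M ⟶ L K (Finset.univ.erase i))
    (b : ∀ i, L K (Finset.univ.erase i) ⟶ M) (h : 𝟙 M = ∑ i, a i ≫ b i) :
    HasProjectiveDimensionLT M n := by
  rw [hasProjectiveDimensionLT_iff]
  intro j hj Y e
  rw [← e.mk₀_id_comp, h, Ext.mk₀_sum, Ext.sum_comp]
  refine Finset.sum_eq_zero fun i _ => ?_
  have := L_pd (K := K) (Finset.univ.erase i)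
  rw [← Ext.mk₀_comp_mk₀_assoc, Ext.eq_zero_of_hasProjectiveDimensionLT ((Ext.mk₀ (b i)).comp e _)
    ((Finset.univ.erase i).card + 1) (by have := i.2; simp; omega), Ext.comp_zero]

end Pool.Agent.H.MP_a29b63_ag
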