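import Pool.Agent.H.MP_a29b63_ag.A

namespace Pool.Agent.H.MP_a29b63_ag
open CategoryTheory MvPolynomial

universe u

/-- An OI-module over the polynomial OI-algebra `n ↦ K[x_1, …, x_n]`. -/
structure OIMod (K : Type u) [Field K] where
  obj : ∀ n, ModuleCat.{u} (P K n)
  map : ∀ {m n : ℕ} (ε : Fin m ↪o Fin n),
    obj m →ₛₗ[(rename ε : P K m →ₐ[K] P K n).toRingHom] obj n
  map_id : ∀ (n : ℕ) (v : obj n), map (RelEmbedding.refl _) v = v
  map_comp : ∀ {l m n : ℕ} (ε : Fin l ↪o Fin m) (δ : Fin m ↪o Fin n) (v : obj l),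
    map (ε.trans δ) v = map δ (map ε v)

variable {K : Type u} [Field K] {l m n : ℕ}

/-- `G` generates the OI-module `M`. -/
def OIMod.Generates (M : OIMod K) (G : Set (Σ n, M.obj n)) : Prop :=
  ∀ n, Submodule.span (P K n) {v | ∃ g ∈ G, ∃ ε : Fin g.1 ↪o Fin n, v = M.map ε g.2} = ⊤

noncomputable def pr (i : Fin n) : P K n →ₐ[K] Polynomial K :=
  aeval fun k => if k = i then Polynomial.X else 0

noncomputable def Φ (K : Type u) [Field K] (n : ℕ) :
    P K n →+* (Fin n → K) × (Fin n → Polynomial K) :=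
  RingHom.prod (RingHom.pi fun _ => constantCoeff) (RingHom.pi fun i => (pr i).toRingHom)

def W (K : Type u) [Field K] (n : ℕ) := (Fin n → K) × (Fin n → Polynomial K)

noncomputable instance : AddCommGroup (W K n) :=
  inferInstanceAs (AddCommGroup ((Fin n → K) × (Fin n → Polynomial K)))

noncomputable instance : Module (P K n) (W K n) :=
  Module.compHom ((Fin n → K) × (Fin n → Polynomial K)) (Φ K n)

@[simp] theorem smul1 (p : P K n) (w : W K n) (j : Fin n) :
    (p • w).1 j = constantCoeff p * w.1 j := rfl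
@[simp] theorem smul2 (p : P K n) (w : W K n) (i : Fin n) : (p • w).2 i = pr i p * w.2 i := rfl
@[simp] theorem add1 (v w : W K n) (j : Fin n) : (v + w).1 j = v.1 j + w.1 j := rfl
@[simp] theorem add2 (v w : W K n) (j : Fin n) : (v + w).2 j = v.2 j + w.2 j := rfl
@[simp] theorem zero1 (j : Fin n) : (0 : W K n).1 j = 0 := rfl
@[simp] theorem zero2 (j : Fin n) : (0 : W K n).2 j = 0 := rfl
theorem sum1 {ι : Type*} (s : Finset ι) (f : ι → W K n) (j : Fin n) :
    (∑ k ∈ s, f k).1 j = ∑ k ∈ s, (f k).1 j :=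
  map_sum (AddMonoidHom.mk' (fun w : W K n => w.1 j) fun _ _ => rfl) f s
theorem sum2 {ι : Type*} (s : Finset ι) (f : ι → W K n) (j : Fin n) :
    (∑ k ∈ s, f k).2 j = ∑ k ∈ s, (f k).2 j :=
  map_sum (AddMonoidHom.mk' (fun w : W K n => w.2 j) fun _ _ => rfl) f s
theorem W_ext {v w : W K n} (h1 : ∀ j, v.1 j = w.1 j) (h2 : ∀ j, v.2 j = w.2 j) : v = w :=
  Prod.ext (funext h1) (funext h2)

theorem pr_X (i k : Fin n) : pr i (X k : P K n) = if k = i then Polynomial.X else 0 := by
  simp [pr]

theorem pr_coeff (i : Fin n) (p : P K n) : (pr i p).coeff 0 = constantCoeff p := by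
  induction p using MvPolynomial.induction_on with
  | C a => simp [pr]
  | add p q hp hq => simp [hp, hq]
  | mul_X p k hp => rw [map_mul, pr_X]; split_ifs <;> simp

def sg (K : Type u) [Field K] (i j : Fin n) : K := if i < j then 1 else if j < i then -1 else 0

def S (u : Fin n → K) (i : Fin n) : K := ∑ j, sg K i j * u j

noncomputable def Ms (K : Type u) [Field K] (n : ℕ) : Submodule (P K n) (W K n) where
  carrier := {w | ∀ i, (w.2 i).coeff 0 = S w.1 i}
  add_mem' {a b} ha hb i := by
    simp only [S, add1, add2, Polynomial.coeff_add, mul_add, Finset.sum_add_distrib, ha i, hb i]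
  zero_mem' i := by simp [S]
  smul_mem' p w hw i := by
    simp only [S, smul1, smul2, Polynomial.mul_coeff_zero, pr_coeff, hw i, Finset.mul_sum]
    exact Finset.sum_congr rfl fun _ _ => by ring

noncomputable def ex {A : Type*} [Zero A] (ε : Fin m ↪o Fin n) (f : Fin m → A) : Fin n → A :=
  Function.extend ε f 0

@[simp] theorem ex_in {A : Type*} [Zero A] (ε : Fin m ↪o Fin n) (f : Fin m → A) (j : Fin m) :
    ex ε f (ε j) = f j := ε.injective.extend_apply _ _ _

theorem ex_out {A : Type*} [Zero A] (ε : Fin m ↪o Fin n) (f : Fin m → A) {i : Fin n}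
    (h : ¬ ∃ j, ε j = i) : ex ε f i = 0 := Function.extend_apply' _ _ _ h

theorem ex_comp {A : Type*} [Zero A] (ε : Fin l ↪o Fin m) (δ : Fin m ↪o Fin n) (f : Fin l → A) :
    ex (ε.trans δ) f = ex δ (ex ε f) := by
  funext i
  by_cases h : ∃ j, δ j = i
  · obtain ⟨j, rfl⟩ := h
    by_cases h : ∃ k, ε k = j
    · obtain ⟨k, rfl⟩ := h
      rw [ex_in, ex_in]; exact ex_in (ε.trans δ) f k
    · rw [ex_in, ex_out _ _ h, ex_out]
      rintro ⟨k, hk⟩
      exact h ⟨k, δ.injective hk⟩
  · rw [ex_out _ _ h, ex_out]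
    rintro ⟨k, hk⟩
    exact h ⟨_, hk⟩

theorem S_ex (ε : Fin m ↪o Fin n) (u : Fin m → K) (i : Fin n) :
    S (ex ε u) i = ∑ j, sg K i (ε j) * u j := by
  rw [S, ← Finset.sum_subset (Finset.subset_univ (Finset.univ.map ε.toEmbedding)), Finset.sum_map]
  · simp
  · intro j _ h
    rw [ex_out _ _ (by simpa using h), mul_zero]

theorem S_ex_in (ε : Fin m ↪o Fin n) (u : Fin m → K) (i : Fin m) : S (ex ε u) (ε i) = S u i := by
  rw [S_ex]; simp [S, sg]

noncomputable def mp (ε : Fin m ↪o Fin n) (w : W K m) : W K n :=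
  (ex ε w.1, fun i => Polynomial.C (S (ex ε w.1) i) +
    Polynomial.X * ex ε (fun j => (w.2 j).divX) i)

theorem mp1 (ε : Fin m ↪o Fin n) (w : W K m) : (mp ε w).1 = ex ε w.1 := rfl

theorem mp2 (ε : Fin m ↪o Fin n) (w : W K m) (i : Fin n) : (mp ε w).2 i =
    Polynomial.C (S (ex ε w.1) i) + Polynomial.X * ex ε (fun j => (w.2 j).divX) i := rfl

theorem divX_mp (a : K) (g : Polynomial K) : (Polynomial.C a + Polynomial.X * g).divX = g := by
  ext k; simp [Polynomial.coeff_divX, Polynomial.coeff_X_mul]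

theorem mp_comp (ε : Fin l ↪o Fin m) (δ : Fin m ↪o Fin n) (w : W K l) :
    mp (ε.trans δ) w = mp δ (mp ε w) :=
  W_ext (fun i => by simp only [mp1, ex_comp]) fun i => by
    simp only [mp1, mp2, ex_comp, divX_mp]

theorem mp_in (ε : Fin m ↪o Fin n) {w : W K m} (hw : w ∈ Ms K m) (i : Fin m) :
    (mp ε w).2 (ε i) = w.2 i := by
  simp only [mp, S_ex_in, ex_in, ← hw i]
  rw [add_comm, Polynomial.X_mul_divX_add]

theorem mp_out (ε : Fin m ↪o Fin n) (w : W K m) {i : Fin n} (h : ¬ ∃ j, ε j = i) :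
    (mp ε w).2 i = Polynomial.C (∑ j, sg K i (ε j) * w.1 j) := by
  simp only [mp, ex_out _ _ h, S_ex, mul_zero, add_zero]

theorem mp_mem (ε : Fin m ↪o Fin n) (w : W K m) : mp ε w ∈ Ms K n := fun i => by simp [mp]

noncomputable def MM (K : Type u) [Field K] : OIMod K where
  obj n := ModuleCat.of _ (Ms K n)
  map {m n} ε :=
    { toFun w := ⟨mp ε w.1, mp_mem _ _⟩
      map_add' := by
        rintro v w
        refine Subtype.ext (W_ext (fun i => ?_) fun i => ?_) <;> by_cases h : ∃ j, ε j = i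
        · obtain ⟨j, rfl⟩ := h; simp [mp1]
        · simp [mp1, ex_out _ _ h]
        · obtain ⟨j, rfl⟩ := h
          simp only [Submodule.coe_add, add2, mp_in _ v.2, mp_in _ w.2, mp_in _ (add_mem v.2 w.2)]
        · simp [mp_out _ _ h, mul_add, Finset.sum_add_distrib]
      map_smul' := by
        rintro p w
        refine Subtype.ext (W_ext (fun i => ?_) fun i => ?_) <;> by_cases h : ∃ j, ε j = i
        · obtain ⟨j, rfl⟩ := h; simp [mp1]
        · simp [mp1, ex_out _ _ h]
        · obtain ⟨j, rfl⟩ := h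
          have : (pr (ε j)).comp (rename ε) = pr (K := K) j := by ext1 k; simp [pr_X]
          simp only [Submodule.coe_smul, smul2, mp_in _ w.2, mp_in _ (Submodule.smul_mem _ p w.2)]
          rw [← this]; rfl
        · have : pr i (rename ε p) = Polynomial.C (constantCoeff p) := by
            induction p using MvPolynomial.induction_on with
            | C a => simp [pr]
            | add p q hp hq => simp [hp, hq]
            | mul_X p k hp => simp [pr_X, show ε k ≠ i from fun e => h ⟨k, e⟩]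
          simp only [Submodule.coe_smul, smul2, smul1, mp_out _ _ h]
          erw [this]
          rw [← map_mul, Finset.mul_sum]
          exact congrArg _ (Finset.sum_congr rfl fun _ _ => by ring) }
  map_id n v := Subtype.ext (W_ext (fun i => ex_in (RelEmbedding.refl _) v.1.1 i)
    fun i => mp_in (RelEmbedding.refl _) v.2 i)
  map_comp ε δ v := Subtype.ext (mp_comp ε δ v.1)

def pt (j : Fin n) : Fin 1 ↪o Fin n := OrderEmbedding.ofStrictMono (fun _ => j)
  (Subsingleton.strictMono _)

noncomputable def g1 (K : Type u) [Field K] : Ms K 1 :=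
  ⟨(fun _ => 1, fun _ => 0), fun i => by
    obtain rfl := Subsingleton.elim i 0
    rw [S, Fin.sum_univ_one]; simp [sg]⟩

noncomputable def g2 (K : Type u) [Field K] : Ms K 1 :=
  ⟨(fun _ => 0, fun _ => Polynomial.X), fun i => by simp [S]⟩

theorem ex_pt {A : Type*} [Zero A] (j : Fin n) (a : A) (i : Fin n) :
    ex (pt j) (fun _ => a) i = if i = j then a else 0 := by
  split_ifs with h
  · rw [h]; exact ex_in (pt j) _ 0
  · exact ex_out _ _ fun ⟨_, e⟩ => h e.symm

theorem pr_aeval (i : Fin n) (h : Polynomial K) : pr i (Polynomial.aeval (X i : P K n) h) = h := by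
  rw [← Polynomial.aeval_algHom_apply, pr_X]; simp

theorem MM_gen : (MM K).Generates {⟨1, g1 K⟩, ⟨1, g2 K⟩} := by
  intro n
  rw [eq_top_iff]
  rintro (w : Ms K n) -
  have : w = ∑ j, (C (w.1.1 j) : P K n) • (⟨mp (pt j) (g1 K).1, mp_mem _ _⟩ : Ms K n) +
      ∑ j, Polynomial.aeval (X j : P K n) (w.1.2 j).divX •
        (⟨mp (pt j) (g2 K).1, mp_mem _ _⟩ : Ms K n) := by
    refine Subtype.ext (W_ext (fun i => ?_) fun i => ?_)
    · simp only [Submodule.coe_add, add1, Submodule.coe_sum, sum1, Submodule.coe_smul, smul1, mp1]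
      simp [g1, g2, ex_pt]
    · have h1 : Polynomial.divX (Polynomial.X : Polynomial K) = 1 := by
        simpa using divX_mp (0 : K) 1
      have h2 : ∀ a : K, pr i (C a : P K n) = Polynomial.C a := fun a => by simp [pr]
      have h3 : ∀ j : Fin n, ∀ k, pt j k = j := fun _ _ => rfl
      simp only [Submodule.coe_add, add2, Submodule.coe_sum, sum2, Submodule.coe_smul, smul2, mp2,
        S_ex]
      simp [g1, g2, ex_pt, h1, h2, h3, pr_aeval]
      conv_lhs => rw [← Polynomial.X_mul_divX_add (w.1.2 i), w.2 i]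
      simp [S, mul_comm, add_comm]
  rw [this]
  refine add_mem (Submodule.sum_mem _ fun j _ => Submodule.smul_mem _ _ ?_)
    (Submodule.sum_mem _ fun j _ => Submodule.smul_mem _ _ ?_)
  · exact Submodule.subset_span ⟨⟨1, g1 K⟩, by simp, pt j, rfl⟩
  · exact Submodule.subset_span ⟨⟨1, g2 K⟩, by simp, pt j, rfl⟩

theorem S_eq (u : Fin n → K) (U : ℕ → K) (h : ∀ j : Fin n, u j = U j) (i : Fin n) :
    S u i = ∑ j ∈ Finset.range n, U j - ∑ j ∈ Finset.range (i + 1), U j -
      ∑ j ∈ Finset.range i, U j := by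
  have h1 : ∀ k ≤ n, ∑ j ∈ Finset.range k, U j = ∑ j : Fin n, if (j : ℕ) < k then U j else 0 := by
    intro k hk
    rw [Fin.sum_univ_eq_sum_range (fun j => if j < k then U j else 0), ← Finset.sum_filter]
    congr 1; ext j; simp; omega
  rw [h1 _ le_rfl, h1 _ i.2, h1 _ i.2.le, ← Finset.sum_sub_distrib, ← Finset.sum_sub_distrib]
  refine Finset.sum_congr rfl fun j _ => ?_
  have := j.2
  simp only [sg, h, Fin.lt_def]
  split_ifs <;> first | omega | simp

theorem S_inj (hn : Even n) {u : Fin n → K} (h : ∀ i, S u i = 0) : u = 0 := by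
  let U : ℕ → K := fun j => if h : j < n then u ⟨j, h⟩ else 0
  have hU : ∀ j : Fin n, u j = U j := fun j => by simp [U]
  set a := ∑ j ∈ Finset.range n, U j with ha
  have h1 : ∀ i ≤ n, ∑ j ∈ Finset.range i, U j = if Even i then 0 else a := by
    intro i hi
    induction i with
    | zero => simp
    | succ i ih =>
      have h2 := S_eq u U hU ⟨i, hi⟩
      rw [h, ih (by omega)] at h2
      by_cases h3 : Even i <;> simp only [Nat.even_add_one, h3, if_true, if_false, not_true,
        not_false_iff] at h2 ⊢ <;> linear_combination h2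
  have h2 := h1 n le_rfl
  rw [if_pos hn, ← ha] at h2
  funext i
  have h3 := h1 (i + 1) i.2
  rw [Finset.sum_range_succ, h1 i i.2.le, h2] at h3
  simpa [hU] using h3

theorem S_surj (hn : Even n) (v : Fin n → K) : ∃ u, S u = v := by
  let f : (Fin n → K) →ₗ[K] (Fin n → K) := Matrix.mulVecLin (Matrix.of (sg K))
  exact LinearMap.surjective_of_injective (f := f) ((injective_iff_map_eq_zero _).2
    fun u hu => S_inj hn fun i => congrFun hu i) v

theorem S_ker (hn : Odd n) (i : Fin n) : S (fun j => (-1 : K) ^ (j : ℕ)) i = 0 := by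
  rw [S_eq _ (fun j => (-1 : K) ^ j) (fun _ => rfl), neg_one_geom_sum, neg_one_geom_sum,
    neg_one_geom_sum, if_neg (Nat.not_even_iff_odd.2 hn)]
  by_cases h3 : Even (i : ℕ) <;> simp [Nat.even_add_one, h3]

end Pool.Agent.H.MP_a29b63_ag
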